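import Pool.Agent.Leo3.Stmts

/-!
# Leo3, module QUA: integers and ideals of an imaginary quadratic field
-/

set_option autoImplicit false

open NumberField IsDedekindDomain WithZero Module Polynomial

namespace Pool.Agent.Leo3.H90

section quad

variable {F : Type} [Field F] [NumberField F] {m : ℕ} {s : F}

theorem not_rat (hm : 0 < m) (hs : s ^ 2 = -(m : F)) (q : ℚ) : algebraMap ℚ F q ≠ s := by
  intro h
  have h1 : algebraMap ℚ F (q ^ 2) = algebraMap ℚ F (-(m : ℚ)) := by
    rw [map_pow, h, hs]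
    simp
  have h2 := (algebraMap ℚ F).injective h1
  have h3 : (0 : ℚ) < m := by exact_mod_cast hm
  nlinarith [sq_nonneg q]

/-- The conjugation. -/
theorem exists_conj (hF : finrank ℚ F = 2) (hm : 0 < m) (hs : s ^ 2 = -(m : F)) :
    ∃ c : F ≃ₐ[ℚ] F, c s = -s ∧ (∀ x, c (c x) = x) ∧
      (∀ x : F, c x = x → ∃ q : ℚ, algebraMap ℚ F q = x) ∧
      ∀ x : F, algebraMap ℚ F (Algebra.norm ℚ x) = x * c x := by
  have : Algebra.IsQuadraticExtension ℚ F := ⟨hF⟩
  have : IsGalois ℚ F := inferInstance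
  have h1 : ∃ c : F ≃ₐ[ℚ] F, c s ≠ s := by
    by_contra hcon
    push Not at hcon
    obtain ⟨q, hq⟩ := (IsGalois.mem_range_algebraMap_iff_fixed s).mpr hcon
    exact not_rat hm hs q hq
  obtain ⟨c, hc⟩ := h1
  have hcs : c s = -s := by
    have h2 : (c s) ^ 2 = s ^ 2 := by
      rw [← map_pow, hs, map_neg, map_natCast]
    rcases sq_eq_sq_iff_eq_or_eq_neg.mp h2 with h | h
    · exact absurd h hc
    · exact h
  have hcard : Fintype.card (F ≃ₐ[ℚ] F) = 2 := by
    rw [← Nat.card_eq_fintype_card, IsGalois.card_aut_eq_finrank, hF]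
  have hc1 : c ≠ 1 := by
    rintro rfl
    exact hc rfl
  classical
  have huniv : (Finset.univ : Finset (F ≃ₐ[ℚ] F)) = {1, c} := by
    symm
    apply Finset.eq_univ_of_card
    rw [Finset.card_pair (Ne.symm hc1), hcard]
  have hall : ∀ g : F ≃ₐ[ℚ] F, g = 1 ∨ g = c := by
    intro g
    have := Finset.mem_univ g
    rw [huniv] at this
    simpa using this
  refine ⟨c, hcs, ?_, ?_, ?_⟩
  · intro x
    have h2 : c * c = 1 := by
      rcases hall (c * c) with h | h
      · exact h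
      · exact absurd (mul_eq_left.mp h) hc1
    have h3 := AlgEquiv.congr_fun h2 x
    simpa using h3
  · intro x hx
    apply (IsGalois.mem_range_algebraMap_iff_fixed x).mpr
    intro g
    rcases hall g with rfl | rfl
    · rfl
    · exact hx
  · intro x
    rw [Algebra.norm_eq_prod_automorphisms, huniv, Finset.prod_pair (Ne.symm hc1)]
    rfl

theorem rat_int {x : F} (hx : IsIntegral ℤ x) {q : ℚ} (h : algebraMap ℚ F q = x) :
    ∃ k : ℤ, q = k := by
  rw [← h, isIntegral_algebraMap_iff (algebraMap ℚ F).injective] at hx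
  obtain ⟨k, hk⟩ := IsIntegrallyClosed.isIntegral_iff.mp hx
  exact ⟨k, hk.symm⟩

theorem s_ne (hm : 0 < m) (hs : s ^ 2 = -(m : F)) : s ≠ 0 := by
  intro h
  exact not_rat hm hs 0 (by rw [map_zero, h])

/-- Coordinates. -/
theorem exists_coord (hm : 0 < m) (hs : s ^ 2 = -(m : F)) {c : F ≃ₐ[ℚ] F} (hcs : c s = -s)
    (hcc : ∀ x, c (c x) = x) (hfix : ∀ x : F, c x = x → ∃ q : ℚ, algebraMap ℚ F q = x) (x : F) :
    ∃ p q : ℚ, x = algebraMap ℚ F p + algebraMap ℚ F q * s := by
  have hs0 := s_ne hm hs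
  obtain ⟨p, hp⟩ := hfix ((x + c x) / 2) (by
    rw [map_div₀, map_add, hcc, map_ofNat, add_comm])
  obtain ⟨q, hq⟩ := hfix ((x - c x) / (2 * s)) (by
    rw [map_div₀, map_sub, hcc, map_mul, map_ofNat, hcs]
    field_simp
    ring)
  refine ⟨p, q, ?_⟩
  rw [hp, hq]
  field_simp
  ring

theorem conj_coord {c : F ≃ₐ[ℚ] F} (hcs : c s = -s) (p q : ℚ) :
    c (algebraMap ℚ F p + algebraMap ℚ F q * s) = algebraMap ℚ F p - algebraMap ℚ F q * s := by
  rw [map_add, map_mul, hcs, AlgEquiv.commutes, AlgEquiv.commutes]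
  ring

theorem sub_conj (hm : 0 < m) (hsf : Squarefree m) (hs : s ^ 2 = -(m : F)) {c : F ≃ₐ[ℚ] F}
    (hcs : c s = -s) (hcc : ∀ x, c (c x) = x)
    (hfix : ∀ x : F, c x = x → ∃ q : ℚ, algebraMap ℚ F q = x) {x : F} (hx : IsIntegral ℤ x) :
    ∃ k : ℤ, x - c x = k * s := by
  have hs0 := s_ne hm hs
  obtain ⟨q, hq⟩ := hfix ((x - c x) / s) (by
    rw [map_div₀, map_sub, hcc, hcs]
    field_simp
    ring)
  have hxq : x - c x = algebraMap ℚ F q * s := by
    rw [hq]
    field_simp
  have hint : IsIntegral ℤ (x - c x) := hx.sub (map_isIntegral_int c.toRingHom hx)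
  have hsq : algebraMap ℚ F (m * q ^ 2) = -(x - c x) ^ 2 := by
    rw [hxq, mul_pow, hs]
    simp only [map_mul, map_natCast, map_pow]
    ring
  obtain ⟨k, hk⟩ := rat_int ((hint.pow 2).neg) hsq
  -- `m q` is an integer
  have hmq : IsIntegral ℤ (m * q : ℚ) := by
    refine ⟨X ^ 2 - C (m * k : ℤ), monic_X_pow_sub_C _ (by norm_num), ?_⟩
    simp only [eval₂_sub, eval₂_X_pow, eval₂_C]
    have : ((algebraMap ℤ ℚ) (m * k) : ℚ) = m * (m * q ^ 2) := by
      rw [hk]
      simp
    rw [this]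
    ring
  obtain ⟨j, hj⟩ := IsIntegrallyClosed.isIntegral_iff.mp hmq
  have hj' : (j : ℚ) = m * q := hj
  have hjk : j ^ 2 = m * k := by
    have : ((j ^ 2 : ℤ) : ℚ) = ((m * k : ℤ) : ℚ) := by
      push_cast
      rw [hj', ← hk]
      ring
    exact_mod_cast this
  have hsfz : Squarefree (m : ℤ) := Int.squarefree_natCast.mpr hsf
  have hdvd : (m : ℤ) ∣ j := (hsfz.dvd_pow_iff_dvd (n := 2) (by norm_num)).mp ⟨k, hjk⟩
  obtain ⟨i, hi⟩ := hdvd
  refine ⟨i, ?_⟩
  have hqi : q = i := by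
    have hm0 : (m : ℚ) ≠ 0 := by exact_mod_cast hm.ne'
    rw [hi] at hj'
    push_cast at hj'
    exact (mul_left_cancel₀ hm0 hj').symm
  rw [hxq, hqi]
  simp

theorem mul_conj (hm : 0 < m) (hs : s ^ 2 = -(m : F)) {c : F ≃ₐ[ℚ] F}
    (hcs : c s = -s) (hcc : ∀ x, c (c x) = x)
    (hfix : ∀ x : F, c x = x → ∃ q : ℚ, algebraMap ℚ F q = x)
    (hnorm : ∀ x : F, algebraMap ℚ F (Algebra.norm ℚ x) = x * c x) (x : 𝓞 F) :
    (x : F) * c x = (Ideal.absNorm (Ideal.span {x}) : ℕ) := by
  rw [← hnorm, Ideal.absNorm_span_singleton]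
  have h1 : Algebra.norm ℚ (x : F) = (Algebra.norm ℤ x : ℚ) := (Algebra.coe_norm_int x).symm
  have hnn : 0 ≤ Algebra.norm ℚ (x : F) := by
    obtain ⟨p, q, hpq⟩ := exists_coord hm hs hcs hcc hfix (x : F)
    have h2 := hnorm (x : F)
    rw [hpq, conj_coord hcs] at h2
    have h3 : Algebra.norm ℚ (algebraMap ℚ F p + algebraMap ℚ F q * s) = p ^ 2 + m * q ^ 2 := by
      apply (algebraMap ℚ F).injective
      rw [h2]
      have : (algebraMap ℚ F p + algebraMap ℚ F q * s) * (algebraMap ℚ F p - algebraMap ℚ F q * s)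
          = (algebraMap ℚ F p) ^ 2 - (algebraMap ℚ F q) ^ 2 * s ^ 2 := by ring
      rw [this, hs]
      simp only [map_add, map_mul, map_pow, map_natCast]
      ring
    rw [hpq, h3]
    positivity
  rw [h1] at hnn ⊢
  have hnn' : 0 ≤ Algebra.norm ℤ x := by exact_mod_cast hnn
  obtain ⟨N, hN⟩ := Int.eq_ofNat_of_zero_le hnn'
  rw [hN]
  simp

/-! ### The integral basis -/

theorem exists_omega (hm4 : m % 4 = 3) (hs : s ^ 2 = -(m : F)) :
    ∃ w : 𝓞 F, (w : F) = (1 + s) / 2 := by
  have hint : IsIntegral ℤ ((1 + s) / 2 : F) := by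
    refine ⟨X ^ 2 - X + C (((m : ℤ) + 1) / 4), ?_, ?_⟩
    · have : (X ^ 2 - X + C (((m : ℤ) + 1) / 4) : ℤ[X]) =
          X ^ 2 + (-X + C (((m : ℤ) + 1) / 4)) := by ring
      rw [this]
      apply monic_X_pow_add
      refine (degree_add_le _ _).trans_lt ?_
      rw [degree_neg, degree_X]
      exact max_lt (by norm_num) (degree_C_le.trans_lt (by norm_num))
    · simp only [eval₂_add, eval₂_sub, eval₂_X_pow, eval₂_X, eval₂_C]
      obtain ⟨k, hk⟩ : (4 : ℤ) ∣ (m : ℤ) + 1 := by omega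
      have h4 : ((m : ℤ) + 1) / 4 = k := by omega
      rw [h4]
      have hk' : ((m : F) + 1) = 4 * (k : F) := by
        have := congrArg (fun z : ℤ => (z : F)) hk
        push_cast at this
        exact this
      have h5 : (algebraMap ℤ F) k = ((m : F) + 1) / 4 := by
        rw [hk']
        simp
      rw [h5]
      have : ((1 + s) / 2) ^ 2 - (1 + s) / 2 + ((m : F) + 1) / 4 = (s ^ 2 + m) / 4 := by ring
      rw [this, hs]
      simp
  exact ⟨⟨(1 + s) / 2, hint⟩, rfl⟩

end quad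

/-- The alternating form. -/
def D {F : Type} [Field F] [NumberField F] (c : F ≃ₐ[ℚ] F) (x y : F) : F := x * c y - y * c x

section form

variable {F : Type} [Field F] [NumberField F] {m : ℕ} {s : F} {c : F ≃ₐ[ℚ] F}

theorem D_comb (a b a' b' : ℤ) (x y : F) :
    D c (a * x + b * y) (a' * x + b' * y) = (a * b' - b * a') * D c x y := by
  unfold D
  simp only [map_add, map_mul, map_intCast]
  ring

/-- The index of an ideal. -/
theorem D_index (hm : 0 < m) (hm4 : m % 4 = 3) (hs : s ^ 2 = -(m : F)) (hcs : c s = -s)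
    (hfix : ∀ x : F, c x = x → ∃ q : ℚ, algebraMap ℚ F q = x)
    (hsub : ∀ x : 𝓞 F, ∃ k : ℤ, (x : F) - c x = k * s) (I : Ideal (𝓞 F)) (u v : 𝓞 F) (hu : u ∈ I)
    (hv : v ∈ I) (hspan : ∀ x ∈ I, ∃ p q : ℤ, x = p * u + q * v) (hD : D c (u : F) v ≠ 0) :
    D c (u : F) v = (Ideal.absNorm I : ℕ) * s ∨ D c (u : F) v = -((Ideal.absNorm I : ℕ) * s) := by
  have hs0 := s_ne hm hs
  obtain ⟨w, hw⟩ := exists_omega hm4 hs
  have hcw : c (w : F) = (1 - s) / 2 := by
    rw [hw, map_div₀, map_add, map_one, hcs, map_ofNat]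
    ring
  have hD1 : D c (1 : F) (w : F) = -s := by
    unfold D
    rw [hcw, hw, map_one]
    ring
  have hww : (w : F) - c w = s := by
    rw [hcw, hw]
    ring
  -- generation of the ring of integers
  have hgen : ∀ x : 𝓞 F, ∃ l k : ℤ, x = (l : 𝓞 F) * 1 + (k : 𝓞 F) * w := by
    intro x
    obtain ⟨k, hk⟩ := hsub x
    have hcoe : ((x - (k : 𝓞 F) * w : 𝓞 F) : F) = (x : F) - k * w := by simp
    obtain ⟨q, hq⟩ := hfix ((x : F) - k * w) (by
      have : (x : F) - c x = k * ((w : F) - c w) := by rw [hww, hk]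
      rw [map_sub, map_mul, map_intCast]
      linear_combination -this)
    have hint : IsIntegral ℤ ((x : F) - k * w) := by
      rw [← hcoe]
      exact RingOfIntegers.isIntegral_coe _
    obtain ⟨l, hl⟩ := rat_int hint hq
    refine ⟨l, k, ?_⟩
    apply RingOfIntegers.coe_injective
    rw [hl] at hq
    simp only [map_add, map_mul, map_intCast, mul_one]
    have hq' : (l : F) = (x : F) - k * w := by
      rw [← hq]
      simp
    rw [hq']
    ring
  -- the integral basis
  have hli : LinearIndependent ℤ ![(1 : 𝓞 F), w] := by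
    rw [LinearIndependent.pair_iff]
    intro a b hab
    have h1 : (a : F) * 1 + b * (w : F) = 0 := by
      have := congrArg (fun z : 𝓞 F => (z : F)) hab
      simpa [zsmul_eq_mul] using this
    have h2 : D c (1 : F) ((a : F) * 1 + b * (w : F)) = b * D c 1 (w : F) := by
      have := D_comb (c := c) 1 0 a b (1 : F) (w : F)
      simpa using this
    rw [h1, hD1] at h2
    have h3 : D c (1 : F) (0 : F) = 0 := by
      unfold D
      simp
    rw [h3] at h2
    have hb : b = 0 := by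
      have : (b : F) = 0 := by
        have h4 : (b : F) * s = 0 := by linear_combination h2
        exact (mul_eq_zero.mp h4).resolve_right hs0
      exact_mod_cast this
    subst hb
    refine ⟨?_, rfl⟩
    have : (a : F) = 0 := by simpa using h1
    exact_mod_cast this
  have hsp : ⊤ ≤ Submodule.span ℤ (Set.range ![(1 : 𝓞 F), w]) := by
    intro x _
    obtain ⟨l, k, hlk⟩ := hgen x
    rw [hlk, Matrix.range_cons, Matrix.range_cons, Matrix.range_empty, Set.union_empty]
    rw [← zsmul_eq_mul, ← zsmul_eq_mul]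
    apply Submodule.add_mem
    · exact Submodule.smul_mem _ _ (Submodule.subset_span (Set.mem_union_left _ rfl))
    · exact Submodule.smul_mem _ _ (Submodule.subset_span (Set.mem_union_right _ rfl))
  let b : Basis (Fin 2) ℤ (𝓞 F) := Basis.mk hli hsp
  have hb0 : b 0 = 1 := by simp [b]
  have hb1 : b 1 = w := by simp [b]
  -- the basis of the ideal
  have hu0 : (u : F) ≠ 0 := by
    intro h
    apply hD
    unfold D
    rw [h]
    simp
  have hliI : LinearIndependent ℤ ![(⟨u, hu⟩ : I), ⟨v, hv⟩] := by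
    rw [LinearIndependent.pair_iff]
    intro a b hab
    have h1 : (a : F) * u + b * (v : F) = 0 := by
      have h0 := congrArg (fun z : I => ((z : 𝓞 F) : F)) hab
      simpa [zsmul_eq_mul] using h0
    have h2 : D c (u : F) ((a : F) * u + b * (v : F)) = b * D c u (v : F) := by
      have := D_comb (c := c) 1 0 a b (u : F) (v : F)
      simpa using this
    have h3 : D c (u : F) (0 : F) = 0 := by
      unfold D
      simp
    rw [h1, h3] at h2
    have hb : b = 0 := by
      have : (b : F) = 0 := (mul_eq_zero.mp h2.symm).resolve_right hD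
      exact_mod_cast this
    subst hb
    refine ⟨?_, rfl⟩
    have : (a : F) = 0 := by
      have h4 : (a : F) * u = 0 := by simpa using h1
      exact (mul_eq_zero.mp h4).resolve_right hu0
    exact_mod_cast this
  have hspI : ⊤ ≤ Submodule.span ℤ (Set.range ![(⟨u, hu⟩ : I), ⟨v, hv⟩]) := by
    intro x _
    obtain ⟨p, q, hpq⟩ := hspan x.1 x.2
    have hx : x = p • (⟨u, hu⟩ : I) + q • (⟨v, hv⟩ : I) := by
      apply Subtype.ext
      rw [hpq]
      simp [zsmul_eq_mul]
    rw [hx, Matrix.range_cons, Matrix.range_cons, Matrix.range_empty, Set.union_empty]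
    apply Submodule.add_mem
    · exact Submodule.smul_mem _ _ (Submodule.subset_span (Set.mem_union_left _ rfl))
    · exact Submodule.smul_mem _ _ (Submodule.subset_span (Set.mem_union_right _ rfl))
  let bI : Basis (Fin 2) ℤ I := Basis.mk hliI hspI
  have hbI0 : ((bI 0 : I) : 𝓞 F) = u := by simp [bI]
  have hbI1 : ((bI 1 : I) : 𝓞 F) = v := by simp [bI]
  have hdet := Ideal.natAbs_det_basis_change b I bI
  obtain ⟨l1, k1, h1⟩ := hgen u
  obtain ⟨l2, k2, h2⟩ := hgen v
  have hr1 : u = l1 • b 0 + k1 • b 1 := by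
    rw [hb0, hb1, zsmul_eq_mul, zsmul_eq_mul]
    exact h1
  have hr2 : v = l2 • b 0 + k2 • b 1 := by
    rw [hb0, hb1, zsmul_eq_mul, zsmul_eq_mul]
    exact h2
  have hdet2 : b.det ((↑) ∘ bI) = l1 * k2 - l2 * k1 := by
    rw [Basis.det_apply, Matrix.det_fin_two]
    simp only [Basis.toMatrix_apply, Function.comp, hbI0, hbI1]
    rw [hr1, hr2]
    simp only [map_add, map_smul, Basis.repr_self, Finsupp.add_apply, Finsupp.smul_apply,
      Finsupp.single_apply, smul_eq_mul]
    norm_num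
  rw [hdet2] at hdet
  have hDuv : D c (u : F) v = -((l1 * k2 - l2 * k1 : ℤ) : F) * s := by
    have hu' : (u : F) = (l1 : F) * 1 + k1 * (w : F) := by
      have := congrArg (fun z : 𝓞 F => (z : F)) h1
      simpa using this
    have hv' : (v : F) = (l2 : F) * 1 + k2 * (w : F) := by
      have := congrArg (fun z : 𝓞 F => (z : F)) h2
      simpa using this
    rw [hu', hv', D_comb, hD1]
    push_cast
    ring
  rw [hDuv, ← hdet]
  rcases Int.natAbs_eq (l1 * k2 - l2 * k1) with h | h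
  · right
    have : ((l1 * k2 - l2 * k1 : ℤ) : F) = (((l1 * k2 - l2 * k1).natAbs : ℕ) : F) := by
      conv_lhs => rw [h]
      simp
    rw [this]
    ring
  · left
    have : ((l1 * k2 - l2 * k1 : ℤ) : F) = -(((l1 * k2 - l2 * k1).natAbs : ℕ) : F) := by
      conv_lhs => rw [h]
      simp
    rw [this]
    ring

theorem D_add (x y z : F) : D c x (y + z) = D c x y + D c x z := by
  unfold D
  rw [map_add]
  ring

theorem D_self (x : F) : D c x x = 0 := by
  unfold D
  ring

theorem cadd (x y : 𝓞 F) : ((x + y : 𝓞 F) : F) = (x : F) + (y : F) := rfl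

theorem csub (x y : 𝓞 F) : ((x - y : 𝓞 F) : F) = (x : F) - (y : F) := rfl

theorem cmul (x y : 𝓞 F) : ((x * y : 𝓞 F) : F) = (x : F) * (y : F) := rfl

theorem cneg (x : 𝓞 F) : ((-x : 𝓞 F) : F) = -(x : F) := rfl

/-- Reduction theory. -/
theorem exists_reduced (hm : 0 < m) (hm4 : m % 4 = 3) (hs : s ^ 2 = -(m : F)) (hcs : c s = -s)
    (hcc : ∀ x, c (c x) = x)
    (hfix : ∀ x : F, c x = x → ∃ q : ℚ, algebraMap ℚ F q = x)
    (hmul : ∀ x : 𝓞 F, (x : F) * c x = (Ideal.absNorm (Ideal.span {x}) : ℕ))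
    (I : Ideal (𝓞 F)) (hI : I ≠ ⊥) :
    ∃ (u v : 𝓞 F) (t : ℚ), u ∈ I ∧ v ∈ I ∧ u ≠ 0 ∧ D c (u : F) v ≠ 0 ∧
      (∀ x ∈ I, ∃ p q : ℤ, x = p * u + q * v) ∧
      algebraMap ℚ F t = (u : F) * c v + (v : F) * c u ∧
      |t| ≤ (Ideal.absNorm (Ideal.span {u}) : ℕ) ∧
      Ideal.absNorm (Ideal.span {u}) ≤ Ideal.absNorm (Ideal.span {v}) := by
  have hs0 := s_ne hm hs
  let N : 𝓞 F → ℕ := fun x => Ideal.absNorm (Ideal.span {x})
  have hN : ∀ x : 𝓞 F, (x : F) * c x = (N x : F) := hmul
  have hNpos : ∀ x : 𝓞 F, x ≠ 0 → 0 < N x := by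
    intro x hx
    have hx' : (x : F) ≠ 0 := by
      intro h
      exact hx (RingOfIntegers.coe_injective (by simpa using h))
    rw [Nat.pos_iff_ne_zero]
    intro h
    have h1 := hN x
    rw [h, Nat.cast_zero] at h1
    rcases mul_eq_zero.mp h1 with h2 | h2
    · exact hx' h2
    · exact hx' ((map_eq_zero c).mp h2)
  -- the minimal vector
  have hne : {x : 𝓞 F | x ∈ I ∧ x ≠ 0}.Nonempty := by
    obtain ⟨x, hx, hx0⟩ := Submodule.exists_mem_ne_zero_of_ne_bot hI
    exact ⟨x, hx, hx0⟩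
  obtain ⟨u, ⟨huI, hu0⟩, humin⟩ := (measure N).wf.has_min _ hne
  have humin' : ∀ x : 𝓞 F, x ∈ I → x ≠ 0 → N u ≤ N x := by
    intro x hx hx0
    exact not_lt.mp (humin x ⟨hx, hx0⟩)
  have hu0' : (u : F) ≠ 0 := by
    intro h
    exact hu0 (RingOfIntegers.coe_injective (by simpa using h))
  -- the second vector
  have hne2 : {x : 𝓞 F | x ∈ I ∧ D c (u : F) x ≠ 0}.Nonempty := by
    obtain ⟨w, hw⟩ := exists_omega hm4 hs
    refine ⟨u * w, I.mul_mem_right _ huI, ?_⟩
    have hcw : c (w : F) = (1 - s) / 2 := by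
      rw [hw, map_div₀, map_add, map_one, hcs, map_ofNat]
      ring
    have : D c (u : F) ((u * w : 𝓞 F) : F) = -(s * ((u : F) * c u)) := by
      unfold D
      rw [cmul, map_mul, hcw, hw]
      ring
    rw [this, hN]
    have h1 := hNpos u hu0
    have h2 : (N u : F) ≠ 0 := by exact_mod_cast h1.ne'
    exact neg_ne_zero.mpr (mul_ne_zero hs0 h2)
  obtain ⟨v, ⟨hvI, hD⟩, hvmin⟩ := (measure N).wf.has_min _ hne2
  have hvmin' : ∀ x : 𝓞 F, x ∈ I → D c (u : F) x ≠ 0 → N v ≤ N x := by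
    intro x hx hx0
    exact not_lt.mp (hvmin x ⟨hx, hx0⟩)
  have hv0 : v ≠ 0 := by
    rintro rfl
    apply hD
    unfold D
    simp
  have huv : N u ≤ N v := humin' v hvI hv0
  obtain ⟨t, ht⟩ := hfix ((u : F) * c v + (v : F) * c u) (by
    rw [map_add, map_mul, map_mul, hcc, hcc]
    ring)
  have hinj := (algebraMap ℚ F).injective
  have ht1 : |t| ≤ (N u : ℚ) := by
    have h1 := hvmin' (v + u) (I.add_mem hvI huI) (by
      rw [cadd, D_add, D_self, add_zero]
      exact hD)
    have h2 := hvmin' (v - u) (I.sub_mem hvI huI) (by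
      rw [csub, sub_eq_add_neg, D_add]
      have : D c (u : F) (-(u : F)) = 0 := by
        unfold D
        rw [map_neg]
        ring
      rw [this, add_zero]
      exact hD)
    have h3 : ((N (v + u) : ℕ) : ℚ) = N v + t + N u := by
      apply hinj
      have := hN (v + u)
      rw [cadd, map_add] at this
      simp only [map_add, map_natCast]
      rw [← this, ht, ← hN u, ← hN v]
      ring
    have h4 : ((N (v - u) : ℕ) : ℚ) = N v - t + N u := by
      apply hinj
      have := hN (v - u)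
      rw [csub, map_sub] at this
      simp only [map_add, map_sub, map_natCast]
      rw [← this, ht, ← hN u, ← hN v]
      ring
    have h1' : ((N v : ℕ) : ℚ) ≤ N (v + u) := by exact_mod_cast h1
    have h2' : ((N v : ℕ) : ℚ) ≤ N (v - u) := by exact_mod_cast h2
    rw [h3] at h1'
    rw [h4] at h2'
    rw [abs_le]
    constructor <;> linarith
  refine ⟨u, v, t, huI, hvI, hu0, hD, ?_, ht, ht1, huv⟩
  intro x hx
  have hcD : ∀ y z : F, c (D c y z) = -D c y z := by
    intro y z
    unfold D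
    rw [map_sub, map_mul, map_mul, hcc, hcc]
    ring
  obtain ⟨α, hα⟩ := hfix (D c (x : F) v / D c (u : F) v) (by
    rw [map_div₀, hcD, hcD, neg_div_neg_eq])
  obtain ⟨β, hβ⟩ := hfix (D c (u : F) x / D c (u : F) v) (by
    rw [map_div₀, hcD, hcD, neg_div_neg_eq])
  have hxe : (x : F) = algebraMap ℚ F α * u + algebraMap ℚ F β * v := by
    rw [hα, hβ]
    field_simp
    unfold D
    ring
  let y : 𝓞 F := x - ((round α : ℤ) : 𝓞 F) * u - ((round β : ℤ) : 𝓞 F) * v
  have hyI : y ∈ I :=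
    I.sub_mem (I.sub_mem hx (I.mul_mem_left _ huI)) (I.mul_mem_left _ hvI)
  have hye : (y : F) = algebraMap ℚ F (α - round α) * u + algebraMap ℚ F (β - round β) * v := by
    have : (y : F) = x - ((round α : ℤ) : F) * u - ((round β : ℤ) : F) * v := by
      simp [y]
    rw [this, hxe]
    simp only [map_sub, map_intCast]
    ring
  set a : ℚ := α - round α with ha
  set b : ℚ := β - round β with hb
  have ha1 : |a| ≤ 1 / 2 := abs_sub_round α
  have hb1 : |b| ≤ 1 / 2 := abs_sub_round β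
  have hNy : ((N y : ℕ) : ℚ) = a ^ 2 * N u + a * b * t + b ^ 2 * N v := by
    apply hinj
    have h1 := hN y
    rw [hye, map_add, map_mul, map_mul, AlgEquiv.commutes, AlgEquiv.commutes] at h1
    simp only [map_add, map_mul, map_pow, map_natCast]
    rw [← h1, ht, ← hN u, ← hN v]
    ring
  have hDy : D c (u : F) y = algebraMap ℚ F b * D c (u : F) v := by
    rw [hye]
    unfold D
    rw [map_add, map_mul, map_mul, AlgEquiv.commutes, AlgEquiv.commutes]
    ring
  have hu1 : (0 : ℚ) < N u := by exact_mod_cast hNpos u hu0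
  have hv1 : (0 : ℚ) < N v := by exact_mod_cast hNpos v hv0
  have huv' : (N u : ℚ) ≤ N v := by exact_mod_cast huv
  have ha2 : a ^ 2 ≤ 1 / 4 := by
    rw [← sq_abs]
    nlinarith [abs_nonneg a]
  have hb2 : b ^ 2 ≤ 1 / 4 := by
    rw [← sq_abs]
    nlinarith [abs_nonneg b]
  have hb0 : b = 0 := by
    by_contra hbne
    have h1 : D c (u : F) y ≠ 0 := by
      rw [hDy]
      exact mul_ne_zero (by
        intro h
        exact hbne ((algebraMap ℚ F).injective (by rw [h, map_zero]))) hD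
    have h2 : ((N v : ℕ) : ℚ) ≤ N y := by exact_mod_cast hvmin' y hyI h1
    have h3 : a * b * t ≤ 1 / 4 * N u := by
      refine (le_abs_self _).trans ?_
      rw [abs_mul, abs_mul]
      have h4 : |a| * |b| ≤ 1 / 4 := by
        nlinarith [abs_nonneg a, abs_nonneg b]
      exact mul_le_mul h4 ht1 (abs_nonneg _) (by norm_num)
    rw [hNy] at h2
    nlinarith
  have hy0 : y = 0 := by
    by_contra hy
    have h1 : ((N u : ℕ) : ℚ) ≤ N y := by exact_mod_cast humin' y hyI hy
    rw [hNy, hb0] at h1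
    nlinarith
  refine ⟨round α, round β, ?_⟩
  have h5 : x - ((round α : ℤ) : 𝓞 F) * u - ((round β : ℤ) : 𝓞 F) * v = 0 := hy0
  linear_combination h5

end form

/-- QUA. -/
theorem qua : QuaStmt := by
  intro F _ _ m s hF hs hsf hm4
  have hm : 0 < m := by omega
  obtain ⟨c, hcs, hcc, hfix, hnorm⟩ := exists_conj hF hm hs
  have hs0 := s_ne hm hs
  have hsub : ∀ x : 𝓞 F, ∃ k : ℤ, (x : F) - c x = k * s := fun x =>
    sub_conj hm hsf hs hcs hcc hfix (RingOfIntegers.isIntegral_coe x)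
  have hmul : ∀ x : 𝓞 F, (x : F) * c x = (Ideal.absNorm (Ideal.span {x}) : ℕ) :=
    mul_conj hm hs hcs hcc hfix hnorm
  refine ⟨c, hcs, ?_, hsub, hmul, ?_⟩
  · intro x hx
    obtain ⟨q, hq⟩ := hfix x hx
    obtain ⟨k, hk⟩ := rat_int (RingOfIntegers.isIntegral_coe x) hq
    refine ⟨k, ?_⟩
    rw [← hq, hk]
    simp
  · intro I hI
    obtain ⟨u, v, t, hu, hv, hu0, hD, hspan, ht, ht1, huv⟩ :=
      exists_reduced hm hm4 hs hcs hcc hfix hmul I hI
    have hind := D_index hm hm4 hs hcs hfix hsub I u v hu hv hspan hD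
    have hineq : 3 * (Ideal.absNorm (Ideal.span {u})) ^ 2 ≤ m * (Ideal.absNorm I) ^ 2 := by
      have h1 : (m : ℚ) * (Ideal.absNorm I : ℕ) ^ 2 =
          4 * (Ideal.absNorm (Ideal.span {u}) : ℕ) * (Ideal.absNorm (Ideal.span {v}) : ℕ)
            - t ^ 2 := by
        apply (algebraMap ℚ F).injective
        simp only [map_sub, map_mul, map_pow, map_natCast, map_ofNat]
        rw [ht, ← hmul u, ← hmul v]
        have h2 : (D c (u : F) v) ^ 2 = -(m : F) * (Ideal.absNorm I : ℕ) ^ 2 := by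
          rcases hind with h | h <;> rw [h]
          · rw [mul_pow, hs]
            ring
          · rw [neg_sq, mul_pow, hs]
            ring
        have h3 : (m : F) * (Ideal.absNorm I : ℕ) ^ 2 = -(D c (u : F) v) ^ 2 := by
          rw [h2]
          ring
        rw [h3]
        unfold D
        ring
      have h2 : ((Ideal.absNorm (Ideal.span {u}) : ℕ) : ℚ) ≤
          (Ideal.absNorm (Ideal.span {v}) : ℕ) := by exact_mod_cast huv
      have h3 : t ^ 2 ≤ ((Ideal.absNorm (Ideal.span {u}) : ℕ) : ℚ) ^ 2 := by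
        rw [← sq_abs]
        exact pow_le_pow_left₀ (abs_nonneg _) ht1 2
      have h4 : (0 : ℚ) ≤ (Ideal.absNorm (Ideal.span {u}) : ℕ) := Nat.cast_nonneg _
      have h5 : (3 : ℚ) * ((Ideal.absNorm (Ideal.span {u}) : ℕ) : ℚ) ^ 2 ≤
          m * ((Ideal.absNorm I : ℕ) : ℚ) ^ 2 := by
        rw [h1]
        nlinarith
      exact_mod_cast h5
    rcases hind with h | h
    · exact ⟨u, v, hu, hv, hu0, hspan, h, hineq⟩
    · refine ⟨u, -v, hu, I.neg_mem hv, hu0, ?_, ?_, hineq⟩
      · intro x hx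
        obtain ⟨p, q, hpq⟩ := hspan x hx
        refine ⟨p, -q, ?_⟩
        rw [hpq]
        push_cast
        ring
      · unfold D at h
        rw [cneg, map_neg]
        linear_combination -h

end Pool.Agent.Leo3.H90
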